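import Pool.Agent.N869.GK.StmT

set_option autoImplicit false

/-! # GK/KTAIL: the tail of the law of the ranks -/

namespace Pool.Agent.N372.GKT

open Finset Filter Topology
open Pool.Agent.N869.GK

/-- `2 ^ (j (j - 1) / 2)` -/
noncomputable def B (j : ℕ) : ℝ := ∏ i ∈ range j, (2 : ℝ) ^ i

lemma B_pos (j : ℕ) : 0 < B j := Finset.prod_pos fun i _ => by positivity

lemma B_succ (j : ℕ) : B (j + 1) = B j * 2 ^ j := by
  unfold B
  rw [prod_range_succ]

lemma B_mono : Monotone B := by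
  refine monotone_nat_of_le_succ fun j => ?_
  rw [B_succ]
  have h1 : (1 : ℝ) ≤ 2 ^ j := one_le_pow₀ (by norm_num)
  nlinarith [B_pos j]

lemma B_eq (m : ℕ) : B (m + 1) = 2 ^ (m * (m + 1) / 2) := by
  unfold B
  rw [prod_pow_eq_pow_sum, sum_range_id]
  congr 2
  simp [mul_comm]

lemma P_bound (j : ℕ) (hj : 1 ≤ j) :
    (∏ i ∈ range j, (2 / (2 ^ (i + 1) - 1) : ℝ)) * (1 / 4 + 1 / 2 ^ (j + 1)) * B j ≤ 1 := by
  induction j, hj using Nat.le_induction with
  | base =>
    simp [B]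
    norm_num
  | succ j hj ih =>
    rw [prod_range_succ, B_succ]
    set P : ℝ := ∏ i ∈ range j, (2 / (2 ^ (i + 1) - 1) : ℝ) with hP
    have ht : (4 : ℝ) ≤ 2 ^ (j + 1) := by
      calc (4 : ℝ) = 2 ^ 2 := by norm_num
        _ ≤ 2 ^ (j + 1) := pow_le_pow_right₀ (by norm_num) (by omega)
    have hPpos : 0 ≤ P * B j := by
      refine mul_nonneg (Finset.prod_nonneg fun i _ => ?_) (B_pos j).le
      have : (1 : ℝ) ≤ 2 ^ (i + 1) := one_le_pow₀ (by norm_num)
      exact div_nonneg (by norm_num) (by linarith)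
    have e1 : (2 : ℝ) ^ (j + 1 + 1) = 2 * 2 ^ (j + 1) := by ring
    have e2 : (2 : ℝ) ^ j = 2 ^ (j + 1) / 2 := by ring
    rw [e1, e2]
    set t : ℝ := 2 ^ (j + 1) with htd
    have key : 2 / (t - 1) * (1 / 4 + 1 / (2 * t)) * (t / 2) ≤ 1 / 4 + 1 / t := by
      have h1 : 0 < t - 1 := by linarith
      have h2 : 0 < t := by linarith
      rw [← sub_nonneg]
      have : 1 / 4 + 1 / t - 2 / (t - 1) * (1 / 4 + 1 / (2 * t)) * (t / 2) =
          (t - 4) / (4 * t * (t - 1)) := by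
        field_simp
        ring
      rw [this]
      have : 0 ≤ t - 4 := by linarith
      positivity
    calc P * (2 / (t - 1)) * (1 / 4 + 1 / (2 * t)) * (B j * (t / 2))
        = P * B j * (2 / (t - 1) * (1 / 4 + 1 / (2 * t)) * (t / 2)) := by ring
      _ ≤ P * B j * (1 / 4 + 1 / t) := mul_le_mul_of_nonneg_left key hPpos
      _ = P * (1 / 4 + 1 / t) * B j := by ring
      _ ≤ 1 := ih

lemma kap_bound (hc0 : 0 < c4) (hc : c4 < 0.4195) (j : ℕ) (hj : 1 ≤ j) :
    kap j ≤ 2 / B j - 2 / B (j + 2) := by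
  have h1 := P_bound j hj
  have hB := B_pos j
  have hPpos : 0 ≤ ∏ i ∈ range j, (2 / (2 ^ (i + 1) - 1) : ℝ) := by
    refine Finset.prod_nonneg fun i _ => ?_
    have : (1 : ℝ) ≤ 2 ^ (i + 1) := one_le_pow₀ (by norm_num)
    exact div_nonneg (by norm_num) (by linarith)
  unfold kap
  set P : ℝ := ∏ i ∈ range j, (2 / (2 ^ (i + 1) - 1) : ℝ) with hP
  have h2 : P * B j ≤ 4 := by
    have h3 : 0 ≤ P * B j * (1 / 2 ^ (j + 1)) := by positivity
    nlinarith
  have h4 : B (j + 2) = B j * (2 ^ j * 2 ^ (j + 1)) := by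
    rw [B_succ, B_succ]
    ring
  have h5 : (8 : ℝ) ≤ 2 ^ j * 2 ^ (j + 1) := by
    rw [← pow_add]
    calc (8 : ℝ) = 2 ^ 3 := by norm_num
      _ ≤ 2 ^ (j + (j + 1)) := pow_le_pow_right₀ (by norm_num) (by omega)
  have h6 : 2 / B (j + 2) ≤ (1 / 4) / B j := by
    rw [h4, div_le_div_iff₀ (by positivity) hB]
    nlinarith
  have h7 : c4 * P ≤ (7 / 4) / B j := by
    rw [le_div_iff₀ hB, mul_assoc]
    nlinarith [mul_nonneg hPpos hB.le]
  have h8 : 2 / B j = (7 / 4) / B j + (1 / 4) / B j := by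
    rw [← add_div]
    norm_num
  linarith

theorem t_KTAIL : Pool.Agent.N869.GK.T.S_KTAIL := by
  rintro ⟨⟨hc0, -, hc⟩, hk, hs⟩ e m
  set e0 := e % 2 with he0
  have he : e0 < 2 := Nat.mod_lt _ (by norm_num)
  have hS := (hs e0 he).tendsto_sum_nat
  set i0 : ℕ := (m + 2 - e0) / 2 with hi0
  have hi1 : m + 1 ≤ 2 * i0 + e0 := by omega
  have hi2 : ∀ i < i0, 2 * i + e0 < m + 1 := by
    intro i hi
    omega
  have hpart : ∀ n : ℕ, ∑ i ∈ range (i0 + n), kap (2 * i + e0) ≤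
      ∑ i ∈ range i0, kap (2 * i + e0) + (2 / B (2 * i0 + e0) - 2 / B (2 * (i0 + n) + e0)) := by
    intro n
    induction n with
    | zero => simp
    | succ n ih =>
      rw [← add_assoc, sum_range_succ]
      have := kap_bound hc0 hc (2 * (i0 + n) + e0) (by omega)
      have e1 : 2 * (i0 + n) + e0 + 2 = 2 * (i0 + n + 1) + e0 := by ring
      rw [e1] at this
      linarith
  have h1 : (1 : ℝ) ≤ ∑ i ∈ range i0, kap (2 * i + e0) + 2 / B (2 * i0 + e0) := by
    refine le_of_tendsto ((tendsto_add_atTop_iff_nat i0).2 hS) (Eventually.of_forall fun n => ?_)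
    have := hpart n
    rw [add_comm i0 n] at this
    have h2 := B_pos (2 * (n + i0) + e0)
    have h3 : 0 < 2 / B (2 * (n + i0) + e0) := by positivity
    linarith
  have h2 : ∑ i ∈ range i0, kap (2 * i + e0) ≤
      ∑ j ∈ (range (m + 1)).filter (fun j => j % 2 = e % 2), kap j := by
    rw [← sum_image (s := range i0) (g := fun i => 2 * i + e0) (f := kap)
      (fun a _ b _ h => by simp only at h; omega)]
    refine sum_le_sum_of_subset_of_nonneg ?_ fun i _ _ => (hk i).1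
    intro j hj
    rw [mem_image] at hj
    obtain ⟨i, hi, rfl⟩ := hj
    rw [mem_range] at hi
    rw [mem_filter, mem_range]
    refine ⟨hi2 i hi, ?_⟩
    omega
  have h3 : 2 / B (2 * i0 + e0) ≤ 2 / 2 ^ (m * (m + 1) / 2) := by
    rw [← B_eq]
    exact div_le_div_of_nonneg_left (by norm_num) (B_pos _) (B_mono hi1)
  linarith

end Pool.Agent.N372.GKT
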